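import Mathlib

set_option autoImplicit false

namespace Pool.Agent.Results.MP_b7f7f4_co.OddBlock

/-- `L` is a latin square of order `n`: every row and every column contains each symbol exactly
once. -/
def IsLatin {n : ℕ} (L : Fin n → Fin n → Fin n) : Prop :=
  (∀ r, Function.Bijective (L r)) ∧ (∀ c, Function.Bijective (fun r => L r c))

/-- `θ` is a `k`-weight of `L`: its sum over the cells of every row, of every column and of every
symbol is `k`. -/
def IsWeight {n : ℕ} (L : Fin n → Fin n → Fin n) (k : ℤ) (θ : Fin n → Fin n → ℤ) : Prop :=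
  (∀ r, ∑ c, θ r c = k) ∧ (∀ c, ∑ r, θ r c = k) ∧
    (∀ s, ∑ p : Fin n × Fin n, (if L p.1 p.2 = s then θ p.1 p.2 else 0) = k)

/-- `L` has an odd-weight. -/
def HasOddWeight {n : ℕ} (L : Fin n → Fin n → Fin n) : Prop :=
  ∃ k : ℤ, Odd k ∧ ∃ θ, IsWeight L k θ

/-- The set of symbols of `L` in the block of rows `r` with `ρ r = i` and columns `c` with
`κ c = j`. -/
def blockSymbols {n N : ℕ} (L : Fin n → Fin n → Fin n) (ρ κ : Fin n → ZMod N) (i j : ZMod N) :
    Set (Fin n) :=
  {s | ∃ r c, ρ r = i ∧ κ c = j ∧ L r c = s}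

/-- `L` has the odd-block pattern of (the Cayley table of) `ZMod N`: the rows are partitioned by
`ρ` and the columns by `κ` into classes indexed by `ZMod N`, all of the same odd size `q`, every
`q × q` block contains exactly `q` symbols (so it is a latin square), and the blocks `(i, j)` and
`(i', j')` have the same set of symbols if and only if `i + j = i' + j'`. -/
def HasOddBlockPattern {n : ℕ} (L : Fin n → Fin n → Fin n) (N : ℕ) : Prop :=
  ∃ (q : ℕ) (ρ κ : Fin n → ZMod N), Odd q ∧
    (∀ i, Nat.card {r // ρ r = i} = q) ∧ (∀ j, Nat.card {c // κ c = j} = q) ∧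
    (∀ i j, Nat.card (blockSymbols L ρ κ i j) = q) ∧
    (∀ i j i' j', blockSymbols L ρ κ i j = blockSymbols L ρ κ i' j' ↔ i + j = i' + j')

/-- The group of triples of integer vectors (row sums, column sums, symbol sums). -/
abbrev VV (n : ℕ) : Type := (Fin n → ℤ) × (Fin n → ℤ) × (Fin n → ℤ)

/-- Duality: without 1-weight there are functions `α, β, γ` to `ℚ/ℤ` with `α r + β c = γ s` on all
entries whose total sums do not balance. -/
lemma dual {n : ℕ} (L : Fin n → Fin n → Fin n) (h : ¬ ∃ θ, IsWeight L 1 θ) :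
    ∃ α β γ : Fin n → AddCircle (1 : ℚ), (∀ r c, α r + β c = γ (L r c)) ∧
      ∑ r, α r + ∑ c, β c - ∑ s, γ s ≠ 0 := by
  classical
  let A : (Fin n × Fin n → ℤ) →+ VV n :=
    { toFun := fun θ => (fun r => ∑ c, θ (r, c), fun c => ∑ r, θ (r, c),
        fun s => ∑ p : Fin n × Fin n, (if L p.1 p.2 = s then θ p else 0))
      map_zero' := by
        refine Prod.ext ?_ (Prod.ext ?_ ?_) <;> funext x <;> simp
      map_add' := by
        intro θ η
        refine Prod.ext ?_ (Prod.ext ?_ ?_)
        · funext x; simp [Finset.sum_add_distrib]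
        · funext x; simp [Finset.sum_add_distrib]
        · funext x
          show ∑ p : Fin n × Fin n, (if L p.1 p.2 = x then (θ + η) p else 0) =
            ∑ p : Fin n × Fin n, (if L p.1 p.2 = x then θ p else 0) +
            ∑ p : Fin n × Fin n, (if L p.1 p.2 = x then η p else 0)
          rw [← Finset.sum_add_distrib]
          apply Finset.sum_congr rfl
          intro p _
          split_ifs <;> simp }
  let one : VV n := (fun _ => 1, fun _ => 1, fun _ => 1)
  have hone : one ∉ A.range := by
    rintro ⟨θ, hθ⟩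
    apply h
    refine ⟨fun r c => θ (r, c), ?_, ?_, ?_⟩
    · intro r
      exact congrFun (congrArg Prod.fst hθ) r
    · intro c
      exact congrFun (congrArg (fun v => v.2.1) hθ) c
    · intro s
      exact congrFun (congrArg (fun v => v.2.2) hθ) s
  have hne : (QuotientAddGroup.mk' A.range one) ≠ 0 := by
    intro h0
    exact hone ((QuotientAddGroup.eq_zero_iff one).mp h0)
  obtain ⟨χ, hχ⟩ := CharacterModule.exists_character_apply_ne_zero_of_ne_zero hne
  let φ : VV n →+ AddCircle (1 : ℚ) := AddMonoidHom.comp χ (QuotientAddGroup.mk' A.range)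
  have hφA : ∀ θ, φ (A θ) = 0 := by
    intro θ
    show χ (QuotientAddGroup.mk' A.range (A θ)) = 0
    have : QuotientAddGroup.mk' A.range (A θ) = 0 :=
      (QuotientAddGroup.eq_zero_iff _).mpr ⟨θ, rfl⟩
    rw [this]
    exact map_zero χ
  have hφ1 : φ one ≠ 0 := hχ
  let eR : Fin n → VV n := fun r => (Pi.single r 1, 0, 0)
  let eC : Fin n → VV n := fun c => (0, Pi.single c 1, 0)
  let eS : Fin n → VV n := fun s => (0, 0, Pi.single s 1)
  refine ⟨fun r => φ (eR r), fun c => φ (eC c), fun s => - φ (eS s), ?_, ?_⟩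
  · intro r c
    have hA : A (Pi.single (r, c) 1) = eR r + eC c + eS (L r c) := by
      refine Prod.ext ?_ (Prod.ext ?_ ?_)
      · funext x
        show ∑ c', (Pi.single (r, c) (1 : ℤ) : Fin n × Fin n → ℤ) (x, c') = _
        have : (eR r + eC c + eS (L r c)).1 x = (Pi.single r (1 : ℤ) : Fin n → ℤ) x := by
          simp [eR, eC, eS]
        rw [this]
        by_cases hx : x = r
        · subst hx
          rw [Finset.sum_eq_single c]
          · simp
          · intro b _ hb
            rw [Pi.single_eq_of_ne]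
            intro h'; exact hb (congrArg Prod.snd h')
          · intro h'; exact absurd (Finset.mem_univ _) h'
        · rw [Pi.single_eq_of_ne hx]
          apply Finset.sum_eq_zero
          intro b _
          rw [Pi.single_eq_of_ne]
          intro h'; exact hx (congrArg Prod.fst h')
      · funext x
        show ∑ r', (Pi.single (r, c) (1 : ℤ) : Fin n × Fin n → ℤ) (r', x) = _
        have : (eR r + eC c + eS (L r c)).2.1 x = (Pi.single c (1 : ℤ) : Fin n → ℤ) x := by
          simp [eR, eC, eS]
        rw [this]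
        by_cases hx : x = c
        · subst hx
          rw [Finset.sum_eq_single r]
          · simp
          · intro b _ hb
            rw [Pi.single_eq_of_ne]
            intro h'; exact hb (congrArg Prod.fst h')
          · intro h'; exact absurd (Finset.mem_univ _) h'
        · rw [Pi.single_eq_of_ne hx]
          apply Finset.sum_eq_zero
          intro b _
          rw [Pi.single_eq_of_ne]
          intro h'; exact hx (congrArg Prod.snd h')
      · funext x
        show ∑ p : Fin n × Fin n, (if L p.1 p.2 = x then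
          (Pi.single (r, c) (1 : ℤ) : Fin n × Fin n → ℤ) p else 0) = _
        have : (eR r + eC c + eS (L r c)).2.2 x = (Pi.single (L r c) (1 : ℤ) : Fin n → ℤ) x := by
          simp [eR, eC, eS]
        rw [this, Finset.sum_eq_single (r, c)]
        · by_cases hx : L r c = x
          · subst hx; simp
          · rw [if_neg hx, Pi.single_eq_of_ne (Ne.symm hx)]
        · intro b _ hb
          rw [Pi.single_eq_of_ne hb]
          simp
        · intro h'; exact absurd (Finset.mem_univ _) h'
    have h0 := hφA (Pi.single (r, c) 1)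
    rw [hA, map_add, map_add] at h0
    exact eq_neg_of_add_eq_zero_left h0
  · have hsum : one = ∑ r, eR r + ∑ c, eC c + ∑ s, eS s := by
      refine Prod.ext ?_ (Prod.ext ?_ ?_)
      · funext x
        simp [one, eR, eC, eS, Prod.fst_sum, Finset.sum_apply, Pi.single_apply]
      · funext x
        simp [one, eR, eC, eS, Prod.fst_sum, Prod.snd_sum, Finset.sum_apply, Pi.single_apply]
      · funext x
        simp [one, eR, eC, eS, Prod.snd_sum, Finset.sum_apply, Pi.single_apply]
    rw [hsum, map_add, map_add, map_sum, map_sum, map_sum] at hφ1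
    rw [Finset.sum_neg_distrib, sub_neg_eq_add]
    exact hφ1

lemma finite_cyclic (K : AddSubgroup (AddCircle (1 : ℚ))) [Finite K] : IsAddCyclic K := by
  have hM : 0 < Nat.card K := Nat.card_pos
  set M := Nat.card K with hMdef
  have hle : K ≤ AddSubgroup.zmultiples (((1 / M : ℚ)) : AddCircle (1 : ℚ)) := by
    intro x hx
    obtain ⟨p, rfl⟩ := QuotientAddGroup.mk_surjective x
    have h0 : M • (⟨_, hx⟩ : K) = 0 := card_nsmul_eq_zero'
    have h1 : M • ((p : ℚ) : AddCircle (1 : ℚ)) = 0 := congrArg Subtype.val h0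
    have h2 : (((M : ℚ) * p : ℚ) : AddCircle (1 : ℚ)) = 0 := by
      rw [← h1, ← AddCircle.coe_nsmul, nsmul_eq_mul]
    rw [AddCircle.coe_eq_zero_iff] at h2
    obtain ⟨k, hk⟩ := h2
    rw [AddSubgroup.mem_zmultiples_iff]
    refine ⟨k, ?_⟩
    rw [← AddCircle.coe_zsmul]
    congr 1
    have hM' : (M : ℚ) ≠ 0 := by exact_mod_cast hM.ne'
    rw [zsmul_eq_mul] at hk ⊢
    field_simp
    linarith
  exact AddSubgroup.isAddCyclic_of_le hle

/-- Every latin square without odd-weights has the odd-block pattern of `ℤ/2m` for some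
`m ≥ 1`. -/
theorem result (n : ℕ) (L : Fin n → Fin n → Fin n) (hL : IsLatin L) (h : ¬ HasOddWeight L) :
    ∃ m : ℕ, 1 ≤ m ∧ HasOddBlockPattern L (2 * m) := by
  classical
  have h1 : ¬ ∃ θ, IsWeight L 1 θ := fun ⟨θ, hθ⟩ => h ⟨1, odd_one, θ, hθ⟩
  obtain ⟨α₀, β₀, γ₀, hrel₀, hsum₀⟩ := dual L h1
  -- order zero is impossible
  have hn : 0 < n := by
    rcases Nat.eq_zero_or_pos n with rfl | hn
    · simp at hsum₀
    · exact hn
  let z : Fin n := ⟨0, hn⟩
  let α : Fin n → AddCircle (1 : ℚ) := fun r => α₀ r - α₀ z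
  let β : Fin n → AddCircle (1 : ℚ) := fun c => β₀ c - β₀ z
  let γ : Fin n → AddCircle (1 : ℚ) := fun s => γ₀ s - (α₀ z + β₀ z)
  have hrel : ∀ r c, α r + β c = γ (L r c) := by
    intro r c
    simp only [α, β, γ, ← hrel₀ r c]
    abel
  have hα0 : α z = 0 := sub_self _
  have hβ0 : β z = 0 := sub_self _
  have hsum : ∑ r, α r + ∑ c, β c - ∑ s, γ s ≠ 0 := by
    have : ∑ r, α r + ∑ c, β c - ∑ s, γ s = ∑ r, α₀ r + ∑ c, β₀ c - ∑ s, γ₀ s := by
      simp only [α, β, γ, Finset.sum_sub_distrib, Finset.sum_const, smul_add]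
      abel
    rw [this]; exact hsum₀
  have hαγ : ∀ r, α r = γ (L r z) := fun r => by rw [← hrel, hβ0, add_zero]
  have hβγ : ∀ c, β c = γ (L z c) := fun c => by rw [← hrel, hα0, zero_add]
  -- the common range is a finite subgroup
  have hrange : ∀ x, x ∈ Set.range γ ↔ x ∈ Set.range α := by
    intro x
    constructor
    · rintro ⟨s, rfl⟩
      obtain ⟨r, hr⟩ := (hL.2 z).2 s
      exact ⟨r, by rw [hαγ]; exact congrArg γ hr⟩
    · rintro ⟨r, rfl⟩
      exact ⟨L r z, (hαγ r).symm⟩
  have hrange' : ∀ x, x ∈ Set.range γ ↔ x ∈ Set.range β := by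
    intro x
    constructor
    · rintro ⟨s, rfl⟩
      obtain ⟨c, hc⟩ := (hL.1 z).2 s
      exact ⟨c, by rw [hβγ]; exact congrArg γ hc⟩
    · rintro ⟨c, rfl⟩
      exact ⟨L z c, (hβγ c).symm⟩
  have hadd : ∀ x y, x ∈ Set.range γ → y ∈ Set.range γ → x + y ∈ Set.range γ := by
    intro x y hx hy
    obtain ⟨r, rfl⟩ := (hrange x).mp hx
    obtain ⟨c, rfl⟩ := (hrange' y).mp hy
    exact ⟨L r c, (hrel r c).symm⟩
  have hzero : (0 : AddCircle (1 : ℚ)) ∈ Set.range γ := (hrange 0).mpr ⟨z, hα0⟩
  have hfin : (Set.range γ).Finite := Set.finite_range γ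
  have hnsmul : ∀ x ∈ Set.range γ, ∀ k : ℕ, k • x ∈ Set.range γ := by
    intro x hx k
    induction k with
    | zero => rw [zero_nsmul]; exact hzero
    | succ k ih => rw [succ_nsmul]; exact hadd _ _ ih hx
  have hneg : ∀ x ∈ Set.range γ, -x ∈ Set.range γ := by
    intro x hx
    obtain ⟨a, b, hab, heq⟩ : ∃ a b : ℕ, a < b ∧ a • x = b • x := by
      have hni : ¬ Function.Injective (fun k : ℕ => (⟨k • x, hnsmul x hx k⟩ : Set.range γ)) := by
        intro hinj
        have : Finite (Set.range γ) := hfin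
        exact not_injective_infinite_finite _ hinj
      unfold Function.Injective at hni
      push Not at hni
      obtain ⟨a, b, heq, hne⟩ := hni
      have heq' : a • x = b • x := congrArg Subtype.val heq
      rcases Nat.lt_or_gt_of_ne hne with h' | h'
      · exact ⟨a, b, h', heq'⟩
      · exact ⟨b, a, h', heq'.symm⟩
    obtain ⟨d, rfl⟩ : ∃ d, b = a + (d + 1) := ⟨b - a - 1, by omega⟩
    rw [add_nsmul, left_eq_add, succ_nsmul] at heq
    have : -x = d • x := (eq_neg_of_add_eq_zero_left heq).symm
    rw [this]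
    exact hnsmul x hx d
  let K : AddSubgroup (AddCircle (1 : ℚ)) :=
    { carrier := Set.range γ
      add_mem' := fun {a b} ha hb => hadd a b ha hb
      zero_mem' := hzero
      neg_mem' := fun {a} ha => hneg a ha }
  have hmemK : ∀ x, x ∈ K ↔ x ∈ Set.range γ := fun x => Iff.rfl
  have : Finite K := hfin
  have hcyc : IsAddCyclic K := finite_cyclic K
  let a' : Fin n → K := fun r => ⟨α r, (hrange _).mpr ⟨r, rfl⟩⟩
  let b' : Fin n → K := fun c => ⟨β c, (hrange' _).mpr ⟨c, rfl⟩⟩
  let g' : Fin n → K := fun s => ⟨γ s, ⟨s, rfl⟩⟩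
  have hrel' : ∀ r c, a' r + b' c = g' (L r c) := fun r c => Subtype.ext (hrel r c)
  have ha'surj : Function.Surjective a' := by
    rintro ⟨x, hx⟩
    obtain ⟨r, rfl⟩ := (hrange x).mp hx
    exact ⟨r, rfl⟩
  have hb'surj : Function.Surjective b' := by
    rintro ⟨x, hx⟩
    obtain ⟨r, rfl⟩ := (hrange' x).mp hx
    exact ⟨r, rfl⟩
  -- fibre sizes
  have hcardR : ∀ x y : K, Nat.card {r // a' r = x} = Nat.card {s // g' s = x + y} := by
    intro x y
    obtain ⟨c, hc⟩ := hb'surj y
    let f : {r // a' r = x} → {s // g' s = x + y} := fun r =>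
      ⟨L r.1 c, by rw [← hrel', r.2, hc]⟩
    apply Nat.card_congr
    refine Equiv.ofBijective f ⟨?_, ?_⟩
    · intro r r' hrr
      exact Subtype.ext ((hL.2 c).1 (congrArg Subtype.val hrr))
    · rintro ⟨s, hs⟩
      obtain ⟨r, hr⟩ := (hL.2 c).2 s
      have hr' : L r c = s := hr
      refine ⟨⟨r, ?_⟩, Subtype.ext hr'⟩
      have h2 := hrel' r c
      rw [hr', hs, hc] at h2
      exact add_right_cancel h2
  have hcardC : ∀ x y : K, Nat.card {c // b' c = y} = Nat.card {s // g' s = x + y} := by
    intro x y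
    obtain ⟨r, hr⟩ := ha'surj x
    let f : {c // b' c = y} → {s // g' s = x + y} := fun c =>
      ⟨L r c.1, by rw [← hrel', c.2, hr]⟩
    apply Nat.card_congr
    refine Equiv.ofBijective f ⟨?_, ?_⟩
    · intro c c' hcc
      exact Subtype.ext ((hL.1 r).1 (congrArg Subtype.val hcc))
    · rintro ⟨s, hs⟩
      obtain ⟨c, hc⟩ := (hL.1 r).2 s
      refine ⟨⟨c, ?_⟩, Subtype.ext hc⟩
      have h2 := hrel' r c
      rw [hc, hs, hr] at h2
      exact add_left_cancel h2
  let q := Nat.card {r // a' r = 0}
  have hS : ∀ x, Nat.card {s // g' s = x} = q := by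
    intro x
    have := hcardR 0 x
    rw [zero_add] at this
    exact this.symm
  have hR : ∀ x, Nat.card {r // a' r = x} = q := by
    intro x
    rw [hcardR x 0, hS]
  have hC : ∀ x, Nat.card {c // b' c = x} = q := by
    intro x
    rw [hcardC 0 x, hS]
  have : Fintype K := Fintype.ofFinite K
  -- the sums
  have hfib : ∀ f : Fin n → K, (∀ x, Nat.card {r // f r = x} = q) → ∑ r, f r = q • ∑ x : K, x := by
    intro f hf
    rw [← Finset.sum_fiberwise_of_maps_to (s := Finset.univ) (t := Finset.univ) (g := f)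
      (fun _ _ => Finset.mem_univ _), Finset.smul_sum]
    apply Finset.sum_congr rfl
    intro x _
    rw [Finset.sum_congr rfl (g := fun _ => x) (fun r hr => (Finset.mem_filter.mp hr).2),
      Finset.sum_const]
    congr 1
    rw [← hf x, Nat.card_eq_fintype_card, Fintype.card_subtype]
  have hT : q • ∑ x : K, x ≠ 0 := by
    intro h0
    apply hsum
    have e1 := congrArg Subtype.val (hfib a' hR)
    have e2 := congrArg Subtype.val (hfib b' hC)
    have e3 := congrArg Subtype.val (hfib g' hS)
    rw [h0] at e1 e2 e3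
    have f1 : ((∑ r, a' r : K) : AddCircle (1 : ℚ)) = ∑ r, α r := by
      rw [AddSubgroup.val_finsetSum]
    have f2 : ((∑ r, b' r : K) : AddCircle (1 : ℚ)) = ∑ r, β r := by
      rw [AddSubgroup.val_finsetSum]
    have f3 : ((∑ r, g' r : K) : AddCircle (1 : ℚ)) = ∑ r, γ r := by
      rw [AddSubgroup.val_finsetSum]
    rw [← f1, ← f2, ← f3, e1, e2, e3]
    simp
  have h2T : 2 • ∑ x : K, x = 0 := by
    have : ∑ x : K, x = - ∑ x : K, x := by
      rw [← Finset.sum_neg_distrib]
      exact (Equiv.sum_comp (Equiv.neg K) (fun x => x)).symm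
    rw [two_nsmul]
    nth_rewrite 1 [this]
    exact neg_add_cancel _
  have hqodd : Odd q := by
    rw [← Nat.not_even_iff_odd]
    rintro ⟨k, hk⟩
    apply hT
    rw [hk, add_nsmul, ← nsmul_add, ← two_nsmul, h2T, nsmul_zero]
  have hNeven : Even (Nat.card K) := by
    rw [← Nat.not_odd_iff_even]
    rintro ⟨j, hj⟩
    apply hT
    have h0 : Nat.card K • ∑ x : K, x = 0 := by
      rw [Finset.smul_sum]
      apply Finset.sum_eq_zero
      intro x _
      exact card_nsmul_eq_zero'
    have h3 : ∑ x : K, x = 0 := by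
      rw [hj, add_nsmul, mul_nsmul, h2T, one_nsmul] at h0
      simpa using h0
    rw [h3, nsmul_zero]
  obtain ⟨m, hm⟩ := hNeven
  have hm2 : Nat.card K = 2 * m := by omega
  have hKpos : 0 < Nat.card K := Nat.card_pos
  obtain ⟨e⟩ : Nonempty (ZMod (2 * m) ≃+ K) := by
    rw [← hm2]
    exact ⟨zmodAddCyclicAddEquiv hcyc⟩
  have hqpos : 0 < q := hqodd.pos
  have hblock : ∀ i j, blockSymbols L (fun r => e.symm (a' r)) (fun c => e.symm (b' c)) i j =
      {s | g' s = e i + e j} := by
    intro i j
    ext s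
    constructor
    · rintro ⟨r, c, hr, hc, rfl⟩
      show g' (L r c) = e i + e j
      rw [← hrel' r c, ← hr, ← hc, AddEquiv.apply_symm_apply, AddEquiv.apply_symm_apply]
    · intro hs
      have hs' : g' s = e i + e j := hs
      obtain ⟨c, hc⟩ := hb'surj (e j)
      obtain ⟨r, hr⟩ := (hL.2 c).2 s
      have hr' : L r c = s := hr
      refine ⟨r, c, ?_, ?_, hr'⟩
      · have h2 := hrel' r c
        rw [hr', hs', hc] at h2
        have h3 : a' r = e i := add_right_cancel h2
        show e.symm (a' r) = i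
        rw [h3, AddEquiv.symm_apply_apply]
      · show e.symm (b' c) = j
        rw [hc, AddEquiv.symm_apply_apply]
  refine ⟨m, by omega, q, fun r => e.symm (a' r), fun c => e.symm (b' c), hqodd, ?_, ?_, ?_, ?_⟩
  · intro i
    rw [← hR (e i)]
    apply Nat.card_congr
    apply Equiv.subtypeEquivRight
    intro r
    exact e.toEquiv.symm_apply_eq
  · intro j
    rw [← hC (e j)]
    apply Nat.card_congr
    apply Equiv.subtypeEquivRight
    intro c
    exact e.toEquiv.symm_apply_eq
  · intro i j
    rw [hblock]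
    exact hS _
  · intro i j i' j'
    rw [hblock, hblock]
    constructor
    · intro heq
      have hne : Nonempty {s // g' s = e i + e j} := by
        rw [← Finite.card_pos_iff, hS]
        exact hqpos
      obtain ⟨s, hs⟩ := hne
      have hs2 : s ∈ {s | g' s = e i' + e j'} := by
        rw [← heq]; exact hs
      have hs3 : g' s = e i' + e j' := hs2
      apply e.injective
      rw [map_add, map_add, ← hs, ← hs3]
    · intro heq
      rw [← map_add, ← map_add, heq]

end Pool.Agent.Results.MP_b7f7f4_co.OddBlock
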